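import Pool.Agent.H.MP_476501_co.C

namespace Pool.Agent.Results.MP_476501_co.Yes

open Finset Pool.Agent.H.MP_476501_co

/-- The endpoints of edge `e` of the cycle with vertices and edges numbered `0, …, 2l-1`. -/
def ends {l : ℕ} (e : Fin (2 * l)) : Finset ℕ := {e.val, (e.val + 1) % (2 * l)}

/-- A matching: pairwise disjoint edges. -/
def IsMatching {l : ℕ} (M : Finset (Fin (2 * l))) : Prop :=
  ∀ e ∈ M, ∀ e' ∈ M, e ≠ e' → Disjoint (ends e) (ends e')

/-- The colour vector of an edge set. -/
def vec {l h : ℕ} (col : Fin (2 * l) → Fin h) (M : Finset (Fin (2 * l))) (c : Fin h) : ℤ :=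
  (M.filter fun e => col e = c).card

/-- `e₂, e₄, …` (edge `e_j` has number `j - 1`). -/
def M0 (l : ℕ) : Finset (Fin (2 * l)) := univ.filter fun e => e.val % 2 = 1

/-- `e₁, e₃, …`. -/
def M1 (l : ℕ) : Finset (Fin (2 * l)) := univ.filter fun e => e.val % 2 = 0

theorem result (h l : ℕ) (hh : 3 ≤ h) (hl : 1 ≤ l) (col : Fin (2 * l) → Fin h) (k : Fin h → ℤ)
    (hk : ∃ t : ℝ, 0 ≤ t ∧ t ≤ 1 ∧
      ∀ c, (k c : ℝ) = t * vec col (M0 l) c + (1 - t) * vec col (M1 l) c) :
    ∃ M, IsMatching M ∧ (l : ℤ) - h + 2 ≤ M.card ∧ (∀ c, vec col M c ≤ k c) ∧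
      ∑ c, |vec col M c - k c| ≤ (h : ℤ) - 2 := by
  obtain ⟨K, rfl⟩ := Nat.exists_eq_add_one_of_ne_zero (show h ≠ 0 by omega)
  obtain ⟨t, t0, t1, hk⟩ := hk
  have hp : 0 < 2 * l := by omega
  let col' : ℕ → Fin (K + 1) := fun j => col ⟨j % (2 * l), Nat.mod_lt _ hp⟩
  have pc : ∀ j, col' (j + 2 * l) = col' j := fun j => by simp only [col', Nat.add_mod_right]
  have hv : ∀ (P : ℕ → Prop) [DecidablePred P] c, vec col (univ.filter fun e => P e.val) c =
      ∑ i ∈ range l, ((if P (i * 2) ∧ col' (i * 2) = c then 1 else 0) +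
        if P (i * 2 + 1) ∧ col' (i * 2 + 1) = c then 1 else 0) := fun P _ c => by
    have := sum_blk (fun j => if P j ∧ col' j = c then (1 : ℤ) else 0) 2 l
    simp only [sum_range_succ, range_zero, sum_empty, zero_add, add_zero] at this
    rw [← this, mul_comm l, ← Fin.sum_univ_eq_sum_range
      (fun j => if P j ∧ col' j = c then (1 : ℤ) else 0), vec, filter_filter, card_filter]
    push_cast
    exact sum_congr rfl fun e _ => by simp only [col', Nat.mod_eq_of_lt e.2]
  have v0 : ∀ c, vec col (M0 l) c = ∑ i ∈ range l, if col' (i * 2 + 1) = c then 1 else 0 :=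
    fun c => (hv (· % 2 = 1) c).trans (sum_congr rfl fun i _ => by simp [Nat.add_mod])
  have v1 : ∀ c, vec col (M1 l) c = ∑ i ∈ range l, if col' (i * 2) = c then 1 else 0 :=
    fun c => (hv (· % 2 = 0) c).trans (sum_congr rfl fun i _ => by simp [Nat.add_mod])
  obtain ⟨s, ps, hs, hz⟩ := arcs (K := K) (N := l) (a := fun i => col' (i * 2))
    (b := fun i => col' (i * 2 + 1)) (z := fun c => k c - vec col (M0 l) c) (by omega) hl
    (fun i => by simp only [add_mul, mul_comm l, pc])
    (fun i => by simp only [add_mul, mul_comm l, add_right_comm _ (2 * l), pc])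
    (θ := 1 - t) (by linarith) (by linarith) fun c => by
      simp only [dd, sum_sub_distrib, ← v0, ← v1]
      push_cast
      rw [hk]
      ring
  let P : ℕ → Prop := fun j => if j % 2 = 0 then s (j / 2) = true else
    s (j / 2) = false ∧ s (j / 2 + 1) = false
  have P0 : ∀ i, P (i * 2) ↔ s i = true := fun i => by simp [P]
  have P1 : ∀ i, P (i * 2 + 1) ↔ s i = false ∧ s (i + 1) = false := fun i => by
    simp only [P, show (i * 2 + 1) % 2 ≠ 0 by omega, if_false, show (i * 2 + 1) / 2 = i by omega]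
  have nx : ∀ e : Fin (2 * l), P e → ¬ P ((e + 1) % (2 * l)) := fun e he => by
    have := e.2
    obtain ⟨i, hi | hi⟩ := Nat.even_or_odd' e.val <;> rw [hi, mul_comm] at he
    · rw [Nat.mod_eq_of_lt (by omega), hi, mul_comm, P1, (P0 _).1 he]
      simp
    · have := ((P1 _).1 he).2
      by_cases c : i + 1 = l
      · rw [c, ps.eq] at this
        rw [show e.val + 1 = 2 * l by omega, Nat.mod_self, ← zero_mul 2, P0, this]
        simp
      · rw [Nat.mod_eq_of_lt (by omega), show e.val + 1 = (i + 1) * 2 by omega, P0, this]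
        simp
  let u : Fin (K + 1) → ℤ := fun c => ∑ i ∈ range l,
    if (s i = false ∧ s (i + 1) = true) ∧ col' (i * 2 + 1) = c then 1 else 0
  have u0 : ∀ c, 0 ≤ u c := fun c => sum_nonneg fun i _ => by split_ifs <;> simp
  have u1 : ∑ c, u c = st s l := by
    rw [sum_comm, st]
    push_cast
    exact sum_congr rfl fun i _ => by by_cases c : s i = false ∧ s (i + 1) = true <;> simp [c]
  have u2 : ∀ c, vec col (univ.filter fun e => P e.val) c - k c = -u c := fun c => by
    rw [hv P, ← sub_add_cancel (k c) (vec col (M0 l) c), ← show _ = k c - _ from hz c, v0,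
      ← sum_add_distrib, ← sum_sub_distrib, ← sum_neg_distrib]
    refine sum_congr rfl fun i _ => ?_
    simp only [P0, P1, dd]
    cases s i <;> cases s (i + 1) <;> simp
  refine ⟨univ.filter fun e => P e.val, fun e he e' he' hne => ?_, ?_,
    fun c => by linarith [u2 c, u0 c], ?_⟩
  · have h1 := nx e (mem_filter.1 he).2
    have h2 := nx e' (mem_filter.1 he').2
    have h3 : e.val ≠ e'.val := Fin.val_ne_of_ne hne
    simp only [ends, disjoint_insert_left, mem_insert, mem_singleton, disjoint_singleton_left,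
      not_or]
    refine ⟨⟨h3, fun c => h2 (c ▸ (mem_filter.1 he).2)⟩, fun c => h1 (c ▸ (mem_filter.1 he').2),
      fun c => h3 ?_⟩
    exact (Nat.ModEq.add_right_cancel' 1 c).eq_of_lt_of_lt e.2 e'.2
  · have : ((univ.filter fun e : Fin (2 * l) => P e.val).card : ℤ) + st s l = l := by
      have := sum_blk (fun j => if P j then (1 : ℤ) else 0) 2 l
      simp only [sum_range_succ, range_zero, sum_empty, zero_add, add_zero] at this
      rw [card_filter, st]
      push_cast
      rw [Fin.sum_univ_eq_sum_range (fun j => if P j then (1 : ℤ) else 0), mul_comm, this,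
        ← sum_add_distrib, sum_congr rfl (g := fun _ => 1) fun i _ => by
          simp only [P0, P1]
          cases s i <;> cases s (i + 1) <;> simp]
      simp
    push_cast
    omega
  · simp only [u2, abs_neg, fun c => abs_of_nonneg (u0 c), u1]
    push_cast
    omega

end Pool.Agent.Results.MP_476501_co.Yes
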